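import Pool.Agent.BEC.Stmts
import Mathlib.Geometry.Manifold.PartitionOfUnity
import Mathlib.Analysis.SpecialFunctions.SmoothTransition

/-!
# Squad BEC, row HZC (helper96): a `C^1` function bounded by `C δ` is in `H^1_0`
-/

set_option autoImplicit false

namespace Pool.Agent.BEC.H96

open Set Filter Topology MeasureTheory
open scoped InnerProductSpace ENNReal Manifold ContDiff
open Pool.Agent.BE01F Pool.Agent.BEC

noncomputable section

/-- bounded pointwise convergence implies convergence in `L²` -/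
theorem nrm_lim {A X : Type*} [MeasurableSpace A] [NormedAddCommGroup X] {μ : Measure A}
    [IsFiniteMeasure μ] (f : ℕ → A → X) (g : A → X) (hf : ∀ n, AEStronglyMeasurable (f n) μ)
    (hg : AEStronglyMeasurable g μ) (M : ℝ) (hb : ∀ n, ∀ᵐ x ∂μ, ‖g x - f n x‖ ≤ M)
    (hl : ∀ᵐ x ∂μ, Tendsto (fun n => f n x) atTop (𝓝 (g x))) :
    Tendsto (fun n => eLpNorm (fun x => g x - f n x) 2 μ) atTop (𝓝 0) := by
  have h5 : ∀ n, eLpNorm (fun x => g x - f n x) 2 μ =
      (∫⁻ x, ‖g x - f n x‖ₑ ^ (2 : ℝ) ∂μ) ^ (1 / (2 : ℝ)) := by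
    intro n
    rw [eLpNorm_eq_lintegral_rpow_enorm_toReal (by simp) (by simp)]
    have : (2 : ℝ≥0∞).toReal = 2 := by simp
    rw [this]
  simp only [h5]
  have h6 : Tendsto (fun n => ∫⁻ x, ‖g x - f n x‖ₑ ^ (2 : ℝ) ∂μ) atTop (𝓝 (∫⁻ x, 0 ∂μ)) := by
    refine tendsto_lintegral_of_dominated_convergence' (fun x => ENNReal.ofReal M ^ (2 : ℝ))
      ?_ ?_ ?_ ?_
    · intro n
      exact ((hg.sub (hf n)).enorm).pow_const _
    · intro n
      filter_upwards [hb n] with x hx
      refine ENNReal.rpow_le_rpow ?_ (by norm_num)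
      rw [← ofReal_norm_eq_enorm]
      exact ENNReal.ofReal_le_ofReal hx
    · rw [lintegral_const]
      exact (ENNReal.mul_lt_top (ENNReal.rpow_lt_top_of_nonneg (by norm_num) ENNReal.ofReal_ne_top)
        (measure_lt_top μ univ)).ne
    · filter_upwards [hl] with x hx
      have h7 : Tendsto (fun n => g x - f n x) atTop (𝓝 0) := by
        have := hx.const_sub (g x)
        rwa [sub_self] at this
      have h8 : Tendsto (fun n => ‖g x - f n x‖ₑ) atTop (𝓝 0) := by
        have := (continuous_enorm.tendsto (0 : X)).comp h7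
        rwa [enorm_zero] at this
      have h9 := (ENNReal.continuous_rpow_const (y := (2 : ℝ))).tendsto 0
      rw [ENNReal.zero_rpow_of_pos (by norm_num)] at h9
      exact h9.comp h8
  rw [lintegral_zero] at h6
  have h9 := (ENNReal.continuous_rpow_const (y := (1 / 2 : ℝ))).tendsto 0
  rw [ENNReal.zero_rpow_of_pos (by norm_num)] at h9
  exact h9.comp h6

/-- the derivative of the smooth transition is bounded and supported in `[0, 1]` -/
theorem st_prop : ∃ K : ℝ, 0 < K ∧ (∀ x, |deriv Real.smoothTransition x| ≤ K) ∧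
    (∀ x, x < 0 → deriv Real.smoothTransition x = 0) ∧
    ∀ x, 1 < x → deriv Real.smoothTransition x = 0 := by
  have hz1 : ∀ x, 1 < x → deriv Real.smoothTransition x = 0 := by
    intro x h1
    have h2 : Real.smoothTransition =ᶠ[𝓝 x] fun _ => 1 := by
      filter_upwards [Ioi_mem_nhds h1] with y hy
      exact Real.smoothTransition.one_of_one_le (le_of_lt hy)
    rw [h2.deriv_eq, deriv_const]
  have hz0 : ∀ x, x < 0 → deriv Real.smoothTransition x = 0 := by
    intro x h0
    have h2 : Real.smoothTransition =ᶠ[𝓝 x] fun _ => 0 := by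
      filter_upwards [Iio_mem_nhds h0] with y hy
      exact Real.smoothTransition.zero_of_nonpos (le_of_lt hy)
    rw [h2.deriv_eq, deriv_const]
  have hc : Continuous (deriv Real.smoothTransition) :=
    (Real.smoothTransition.contDiff (n := 1)).continuous_deriv (by norm_num)
  obtain ⟨c, hc⟩ := (isCompact_Icc (a := (0 : ℝ)) (b := 1)).exists_bound_of_continuousOn
    hc.continuousOn
  refine ⟨|c| + 1, by positivity, fun x => ?_, hz0, hz1⟩
  rcases lt_or_ge x 0 with h | h
  · rw [hz0 x h, abs_zero]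
    positivity
  rcases lt_or_ge 1 x with h' | h'
  · rw [hz1 x h', abs_zero]
    positivity
  · have := hc x ⟨h, h'⟩
    rw [Real.norm_eq_abs] at this
    exact this.trans ((le_abs_self c).trans (by linarith))

/-- the cut off in one variable -/
def ph (n : ℕ) (t : ℝ) : ℝ := Real.smoothTransition (((n : ℝ) + 1) * t - 1)

theorem ph_smooth (n : ℕ) : ContDiff ℝ ((⊤ : ℕ∞) : WithTop ℕ∞) (ph n) := by
  unfold ph
  exact (Real.smoothTransition.contDiff (n := ⊤)).comp
    ((contDiff_const.mul contDiff_id).sub contDiff_const)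

theorem ph_nonneg (n : ℕ) (t : ℝ) : 0 ≤ ph n t := Real.smoothTransition.nonneg _

theorem ph_le_one (n : ℕ) (t : ℝ) : ph n t ≤ 1 := Real.smoothTransition.le_one _

theorem ph_zero (n : ℕ) (t : ℝ) (h : ((n : ℝ) + 1) * t ≤ 1) : ph n t = 0 :=
  Real.smoothTransition.zero_of_nonpos (by linarith)

theorem ph_one (n : ℕ) (t : ℝ) (h : 2 ≤ ((n : ℝ) + 1) * t) : ph n t = 1 :=
  Real.smoothTransition.one_of_one_le (by linarith)

theorem ph_deriv (n : ℕ) (t : ℝ) :
    HasDerivAt (ph n) (deriv Real.smoothTransition (((n : ℝ) + 1) * t - 1) * ((n : ℝ) + 1)) t := by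
  have h1 : HasDerivAt (fun s : ℝ => ((n : ℝ) + 1) * s - 1) (((n : ℝ) + 1) * 1) t :=
    ((hasDerivAt_id t).const_mul _).sub_const 1
  have h2 : HasDerivAt Real.smoothTransition
      (deriv Real.smoothTransition (((n : ℝ) + 1) * t - 1)) (((n : ℝ) + 1) * t - 1) :=
    ((Real.smoothTransition.contDiff (n := 1)).differentiable (by norm_num)
      (((n : ℝ) + 1) * t - 1)).hasDerivAt
  have h3 := h2.comp t h1
  rw [mul_one] at h3
  exact h3

/-- `|g| |φ_n'(t)|` is bounded if `|g| ≤ C t + 1/(n+1)` -/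
theorem ph_bd : ∃ K : ℝ, 0 < K ∧ ∀ (n : ℕ) (t g C : ℝ), 0 < t → 0 ≤ C →
    |g| ≤ C * t + 1 / ((n : ℝ) + 1) → |g| * |deriv (ph n) t| ≤ (C + 1) * K := by
  obtain ⟨K, hK, hb, hz0, hz⟩ := st_prop
  refine ⟨2 * K, by positivity, fun n t g C ht hC hg => ?_⟩
  have hn : (0 : ℝ) < (n : ℝ) + 1 := by positivity
  rw [(ph_deriv n t).deriv]
  have hpos : 0 ≤ (C + 1) * (2 * K) := by positivity
  rcases lt_or_ge 1 (((n : ℝ) + 1) * t - 1) with h | h
  · rw [hz _ h, zero_mul, abs_zero, mul_zero]
    exact hpos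
  rcases lt_or_ge (((n : ℝ) + 1) * t - 1) 0 with h' | h'
  · rw [hz0 _ h', zero_mul, abs_zero, mul_zero]
    exact hpos
  · rw [abs_mul, abs_of_pos hn]
    have h1 : 1 / ((n : ℝ) + 1) ≤ t := by
      rw [div_le_iff₀ hn]
      linarith
    have h2 : |g| ≤ (C + 1) * t := by linarith
    calc |g| * (|deriv Real.smoothTransition (((n : ℝ) + 1) * t - 1)| * ((n : ℝ) + 1))
        ≤ ((C + 1) * t) * (K * ((n : ℝ) + 1)) :=
          mul_le_mul h2 (mul_le_mul_of_nonneg_right (hb _) hn.le)
            (mul_nonneg (abs_nonneg _) hn.le) (by positivity)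
      _ = ((C + 1) * K) * (((n : ℝ) + 1) * t) := by ring
      _ ≤ ((C + 1) * K) * 2 := mul_le_mul_of_nonneg_left (by linarith) (by positivity)
      _ = (C + 1) * (2 * K) := by ring

/-- a cut off function -/
theorem ex_cut {d : ℕ} (K V : Set (E d)) (hK : IsCompact K) (hV : IsOpen V) (hKV : K ⊆ V) :
    ∃ (χ : E d → ℝ) (L : Set (E d)), ContDiff ℝ ((⊤ : ℕ∞) : WithTop ℕ∞) χ ∧ IsCompact L ∧ L ⊆ V ∧
      (∀ x, x ∉ L → χ x = 0) ∧ ∀ x ∈ K, ∀ᶠ y in 𝓝 x, χ y = 1 := by
  obtain ⟨L, hL, hKL, hLV⟩ := exists_compact_between hK hV hKV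
  obtain ⟨χ, h1, h2, -⟩ := exists_contMDiffMap_one_nhds_of_subset_interior
    (I := 𝓘(ℝ, E d)) (n := (⊤ : ℕ∞)) hK.isClosed hKL
  refine ⟨χ, L, χ.contMDiff.contDiff, hL, hLV, h2, ?_⟩
  exact eventually_nhdsSet_iff_forall.1 h1

theorem hzc (mol : MolStmt) : HzcStmt := by
  intro d Ω V δ f C hO hbdd hδ hpos hcomp hV hΩV hf hC hbd
  classical
  have hcl : IsCompact (closure Ω) := hbdd.isCompact_closure
  obtain ⟨χ, L, hχ, hL, hLV, hχ0, hχ1⟩ := ex_cut (closure Ω) V hcl hV hΩV
  -- the function `F`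
  let F : E d → ℝ := fun x => χ x * f x
  have hF1 : ContDiff ℝ 1 F := by
    rw [contDiff_iff_contDiffAt]
    intro x
    by_cases hx : x ∈ L
    · exact (hχ.contDiffAt.of_le (by simp)).mul (hf.contDiffAt (hV.mem_nhds (hLV hx)))
    · have h1 : F =ᶠ[𝓝 x] fun _ => 0 := by
        filter_upwards [hL.isClosed.isOpen_compl.mem_nhds hx] with y hy
        show χ y * f y = 0
        rw [hχ0 y hy, zero_mul]
      exact contDiffAt_const.congr_of_eventuallyEq h1
  have hFc : HasCompactSupport F := by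
    refine HasCompactSupport.intro hL fun x hx => ?_
    show χ x * f x = 0
    rw [hχ0 x hx, zero_mul]
  have hFe : ∀ x ∈ Ω, F =ᶠ[𝓝 x] f := by
    intro x hx
    filter_upwards [hχ1 x (subset_closure hx)] with y hy
    show χ y * f y = f y
    rw [hy, one_mul]
  have hFf : ∀ x ∈ Ω, F x = f x := fun x hx => (hFe x hx).eq_of_nhds
  have hgFf : ∀ x ∈ Ω, gradient F x = gradient f x := fun x hx => (hFe x hx).gradient.eq_of_nhds
  have hgF : Continuous (gradient F) := by
    unfold gradient
    exact (LinearIsometryEquiv.continuous _).comp (hF1.continuous_fderiv (by simp))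
  have hgFc : HasCompactSupport (gradient F) := by
    unfold gradient
    exact (hFc.fderiv (𝕜 := ℝ)).comp_left (map_zero _)
  obtain ⟨MF, hMF⟩ := hF1.continuous.bounded_above_of_compact_support hFc
  obtain ⟨MG, hMG⟩ := hgF.bounded_above_of_compact_support hgFc
  have hgδ : Continuous (gradient δ) := by
    unfold gradient
    exact (LinearIsometryEquiv.continuous _).comp (hδ.continuous_fderiv (by simp))
  obtain ⟨MD, hMD⟩ := hcl.exists_bound_of_continuousOn hgδ.continuousOn
  obtain ⟨K, hK, hKb⟩ := ph_bd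
  -- the approximations
  have hex : ∀ n : ℕ, ∃ G : E d → ℝ, ContDiff ℝ ((⊤ : ℕ∞) : WithTop ℕ∞) G ∧ HasCompactSupport G ∧
      (∀ x, |F x - G x| ≤ 1 / ((n : ℝ) + 1)) ∧
      ∀ x, ‖gradient F x - gradient G x‖ ≤ 1 / ((n : ℝ) + 1) :=
    fun n => mol d F _ hF1 hFc (by positivity)
  choose G hG hGc hG1 hG2 using hex
  have hle1 : ∀ n : ℕ, 1 / ((n : ℝ) + 1) ≤ 1 := by
    intro n
    rw [div_le_one (by positivity)]
    have : (0 : ℝ) ≤ n := Nat.cast_nonneg n
    linarith
  let W : ℕ → E d → ℝ := fun n x => if x ∈ Ω then ph n (δ x) * G n x else 0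
  let Kn : ℕ → Set (E d) := fun n => {x | x ∈ Ω ∧ 1 / ((n : ℝ) + 1) ≤ δ x}
  have hKc : ∀ n, IsCompact (Kn n) := fun n => hcomp _ (by positivity)
  have hW0 : ∀ n x, x ∉ Kn n → W n x = 0 := by
    intro n x hx
    show (if x ∈ Ω then ph n (δ x) * G n x else 0) = 0
    split_ifs with h
    · have h1 : δ x < 1 / ((n : ℝ) + 1) := not_le.1 (fun h2 => hx ⟨h, h2⟩)
      have hn : (0 : ℝ) < (n : ℝ) + 1 := by positivity
      rw [lt_div_iff₀ hn] at h1
      rw [ph_zero n _ (by linarith), zero_mul]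
    · rfl
  have hWe : ∀ n x, x ∈ Ω → W n =ᶠ[𝓝 x] fun y => ph n (δ y) * G n y := by
    intro n x hx
    filter_upwards [hO.mem_nhds hx] with y hy
    exact if_pos hy
  have hWs : ∀ n, ContDiff ℝ ((⊤ : ℕ∞) : WithTop ℕ∞) (W n) := by
    intro n
    rw [contDiff_iff_contDiffAt]
    intro x
    by_cases hx : x ∈ Ω
    · have h1 : ContDiffAt ℝ ((⊤ : ℕ∞) : WithTop ℕ∞) (fun y => ph n (δ y) * G n y) x :=
        (((ph_smooth n).comp hδ).mul (hG n)).contDiffAt
      exact h1.congr_of_eventuallyEq (hWe n x hx)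
    · have h1 : W n =ᶠ[𝓝 x] fun _ => 0 := by
        filter_upwards [(hKc n).isClosed.isOpen_compl.mem_nhds (fun h => hx h.1)] with y hy
        exact hW0 n y hy
      exact contDiffAt_const.congr_of_eventuallyEq h1
  have hWc : ∀ n, HasCompactSupport (W n) := fun n => HasCompactSupport.intro (hKc n) (hW0 n)
  have hWt : ∀ n, Test Ω (W n) := by
    intro n
    refine ⟨hWs n, hWc n, ?_⟩
    refine (closure_minimal ?_ (hKc n).isClosed).trans (fun x hx => hx.1)
    intro x hx
    by_contra hc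
    exact hx (hW0 n x hc)
  have hWl : ∀ x ∈ Ω, ∀ᶠ n in atTop, W n =ᶠ[𝓝 x] G n := by
    intro x hx
    have hs := hpos x hx
    have t1 : Tendsto (fun n : ℕ => ((n : ℝ) + 1) * (δ x / 2)) atTop atTop :=
      (tendsto_natCast_atTop_atTop.atTop_add tendsto_const_nhds).atTop_mul_const (by linarith)
    filter_upwards [t1.eventually_ge_atTop 2] with n h1
    have e1 : ∀ᶠ y in 𝓝 x, δ x / 2 < δ y :=
      hδ.continuous.continuousAt.eventually (lt_mem_nhds (by linarith))
    filter_upwards [e1, hWe n x hx] with y g1 g2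
    have hn : (0 : ℝ) < (n : ℝ) + 1 := by positivity
    rw [g2, ph_one n _ (h1.trans (mul_le_mul_of_nonneg_left g1.le hn.le)), one_mul]
  have hgr : ∀ n x, x ∈ Ω → gradient F x - gradient (W n) x =
      (1 - ph n (δ x)) • gradient F x + ph n (δ x) • (gradient F x - gradient (G n) x) -
        (G n x * deriv (ph n) (δ x)) • gradient δ x := by
    intro n x hx
    have a1 : DifferentiableAt ℝ δ x := hδ.contDiffAt.differentiableAt (by simp)
    have a2 : DifferentiableAt ℝ (G n) x := (hG n).contDiffAt.differentiableAt (by simp)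
    have a3 : HasFDerivAt (fun y => ph n (δ y)) (deriv (ph n) (δ x) • fderiv ℝ δ x) x :=
      HasDerivAt.comp_hasFDerivAt (h₂ := ph n) x
        ((ph_smooth n).differentiable (by simp) (δ x)).hasDerivAt a1.hasFDerivAt
    have a4 := (a3.mul a2.hasFDerivAt).fderiv
    have a5 : fderiv ℝ (W n) x = ph n (δ x) • fderiv ℝ (G n) x +
        G n x • (deriv (ph n) (δ x) • fderiv ℝ δ x) := by
      rw [(hWe n x hx).fderiv_eq]
      exact a4
    have a6 : gradient (W n) x = ph n (δ x) • gradient (G n) x +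
        (G n x * deriv (ph n) (δ x)) • gradient δ x := by
      unfold gradient
      rw [a5, map_add, map_smul, map_smul, map_smul, smul_smul]
    rw [a6, smul_sub, sub_smul, one_smul]
    abel
  have hab : ∀ n x, |1 - ph n (δ x)| ≤ 1 := by
    intro n x
    have := ph_nonneg n (δ x)
    have := ph_le_one n (δ x)
    rw [abs_le]
    constructor <;> linarith
  have hab2 : ∀ n x, |ph n (δ x)| ≤ 1 := by
    intro n x
    rw [abs_of_nonneg (ph_nonneg n (δ x))]
    exact ph_le_one n (δ x)
  have d1 : ∀ n x, x ∈ Ω → ‖F x - W n x‖ ≤ MF + 1 := by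
    intro n x hx
    have e1 : W n x = ph n (δ x) * G n x := if_pos hx
    have e2 : F x - W n x = (1 - ph n (δ x)) * F x + ph n (δ x) * (F x - G n x) := by
      rw [e1]
      ring
    rw [e2]
    refine (norm_add_le _ _).trans (add_le_add ?_ ?_)
    · rw [norm_mul, Real.norm_eq_abs]
      calc |1 - ph n (δ x)| * ‖F x‖ ≤ 1 * ‖F x‖ :=
            mul_le_mul_of_nonneg_right (hab n x) (norm_nonneg _)
        _ = ‖F x‖ := one_mul _
        _ ≤ MF := hMF x
    · rw [norm_mul, Real.norm_eq_abs, Real.norm_eq_abs]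
      calc |ph n (δ x)| * |F x - G n x| ≤ 1 * 1 :=
            mul_le_mul (hab2 n x) ((hG1 n x).trans (hle1 n)) (abs_nonneg _) zero_le_one
        _ = 1 := one_mul _
  have d2 : ∀ n x, x ∈ Ω → ‖gradient F x - gradient (W n) x‖ ≤ MG + 1 + (C + 1) * K * MD := by
    intro n x hx
    rw [hgr n x hx]
    refine (norm_sub_le _ _).trans (add_le_add ((norm_add_le _ _).trans (add_le_add ?_ ?_)) ?_)
    · rw [norm_smul, Real.norm_eq_abs]
      calc |1 - ph n (δ x)| * ‖gradient F x‖ ≤ 1 * ‖gradient F x‖ :=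
            mul_le_mul_of_nonneg_right (hab n x) (norm_nonneg _)
        _ = ‖gradient F x‖ := one_mul _
        _ ≤ MG := hMG x
    · rw [norm_smul, Real.norm_eq_abs]
      calc |ph n (δ x)| * ‖gradient F x - gradient (G n) x‖ ≤ 1 * 1 :=
            mul_le_mul (hab2 n x) ((hG2 n x).trans (hle1 n)) (norm_nonneg _) zero_le_one
        _ = 1 := one_mul _
    · rw [norm_smul, Real.norm_eq_abs, abs_mul]
      have hs := hpos x hx
      have h1 : |G n x| ≤ C * δ x + 1 / ((n : ℝ) + 1) := by
        have h2 : |F x| ≤ C * δ x := by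
          rw [hFf x hx]
          exact hbd x hx
        have h3 := hG1 n x
        have h4 : G n x = F x - (F x - G n x) := by ring
        rw [h4]
        exact (abs_sub _ _).trans (add_le_add h2 h3)
      exact mul_le_mul (hKb n (δ x) (G n x) C hs hC h1) (hMD x (subset_closure hx))
        (norm_nonneg _) (by positivity)
  have hae : ∀ᵐ x ∂(vol Ω), x ∈ Ω := ae_restrict_mem hO.measurableSet
  haveI : IsFiniteMeasure (vol Ω) := by
    unfold vol
    exact ⟨by rw [Measure.restrict_apply_univ]; exact hbdd.measure_lt_top⟩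
  have hzero : Tendsto (fun n : ℕ => 1 / ((n : ℝ) + 1)) atTop (𝓝 0) :=
    tendsto_one_div_add_atTop_nhds_zero_nat
  have cgW : ∀ n, Continuous (gradient (W n)) := by
    intro n
    unfold gradient
    exact (LinearIsometryEquiv.continuous _).comp ((hWs n).continuous_fderiv (by simp))
  have l1 := nrm_lim (μ := vol Ω) W F (fun n => (hWs n).continuous.aestronglyMeasurable)
    hF1.continuous.aestronglyMeasurable (MF + 1)
    (fun n => by filter_upwards [hae] with x hx using d1 n x hx)
    (by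
      filter_upwards [hae] with x hx
      have h1 : Tendsto (fun n => G n x) atTop (𝓝 (F x)) := by
        rw [tendsto_iff_norm_sub_tendsto_zero]
        refine squeeze_zero (fun n => norm_nonneg _) (fun n => ?_) hzero
        rw [norm_sub_rev, Real.norm_eq_abs]
        exact hG1 n x
      refine h1.congr' ?_
      filter_upwards [hWl x hx] with n hn
      exact hn.eq_of_nhds.symm)
  have l2 := nrm_lim (μ := vol Ω) (fun n => gradient (W n)) (gradient F)
    (fun n => (cgW n).aestronglyMeasurable) hgF.aestronglyMeasurable (MG + 1 + (C + 1) * K * MD)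
    (fun n => by filter_upwards [hae] with x hx using d2 n x hx)
    (by
      filter_upwards [hae] with x hx
      have h1 : Tendsto (fun n => gradient (G n) x) atTop (𝓝 (gradient F x)) := by
        rw [tendsto_iff_norm_sub_tendsto_zero]
        refine squeeze_zero (fun n => norm_nonneg _) (fun n => ?_) hzero
        rw [norm_sub_rev]
        exact hG2 n x
      refine h1.congr' ?_
      filter_upwards [hWl x hx] with n hn
      exact hn.gradient.eq_of_nhds.symm)
  have e1 : F =ᵐ[vol Ω] f := by filter_upwards [hae] with x hx using hFf x hx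
  have e2 : gradient F =ᵐ[vol Ω] gradient f := by filter_upwards [hae] with x hx using hgFf x hx
  have m1 : MemLp F 2 (vol Ω) := by
    haveI : IsFiniteMeasureOnCompacts (vol Ω) := inferInstance
    exact hF1.continuous.memLp_of_hasCompactSupport hFc
  have m2 : MemLp (gradient F) 2 (vol Ω) := by
    haveI : IsFiniteMeasureOnCompacts (vol Ω) := inferInstance
    exact hgF.memLp_of_hasCompactSupport hgFc
  refine ⟨m1.ae_eq e1, m2.ae_eq e2, fun ε hε => ?_⟩
  obtain ⟨n, h1, h2⟩ := ((l1.eventually (gt_mem_nhds hε)).and (l2.eventually (gt_mem_nhds hε))).exists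
  refine ⟨W n, hWt n, ?_, ?_⟩
  · have h3 : nrm Ω (fun x => f x - W n x) = eLpNorm (fun x => F x - W n x) 2 (vol Ω) := by
      refine eLpNorm_congr_ae ?_
      filter_upwards [e1] with x hx
      rw [hx]
    rw [h3]
    exact h1
  · have h3 : nrmv Ω (fun x => gradient f x - gradient (W n) x) =
        eLpNorm (fun x => gradient F x - gradient (W n) x) 2 (vol Ω) := by
      refine eLpNorm_congr_ae ?_
      filter_upwards [e2] with x hx
      rw [hx]
    rw [h3]
    exact h2

end

end Pool.Agent.BEC.H96
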